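import Mathlib

set_option autoImplicit false

namespace Pool.Agent.Results.MP_0a04b1_lc.NotDec

/-- `A, B ⊆ E³` are product-isomorphic: some bijection `f` of `E`, applied in all three
coordinates, sends `A` onto `B`. -/
def ProdIso {E : Type} (A B : Set (E × E × E)) : Prop :=
  ∃ f : E ≃ E, (fun p : E × E × E => (f p.1, f p.2.1, f p.2.2)) '' A = B

/-- `P` is a partition of `A` into `m` pairwise disjoint pieces. -/
def IsPartition {X : Type} {m : ℕ} (A : Set X) (P : Fin m → Set X) : Prop :=
  (⋃ i, P i) = A ∧ Pairwise fun i j => Disjoint (P i) (P j)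

/-- `A, B ⊆ E³` are product-isomorphic under decomposition: for some finite `m ≥ 1` they split
into `m` pairwise disjoint pieces with corresponding pieces product-isomorphic. -/
def DecIso {E : Type} (A B : Set (E × E × E)) : Prop :=
  ∃ m : ℕ, 1 ≤ m ∧ ∃ P Q : Fin m → Set (E × E × E),
    IsPartition A P ∧ IsPartition B Q ∧ ∀ i, ProdIso (P i) (Q i)

/-- The representation (multiplication graph `{(x, y, z) : x y = z}`) of the group `G`, carried to
the set `E` by the bijection `e`. -/
def rep {G E : Type} [Group G] (e : G ≃ E) : Set (E × E × E) :=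
  {p | e.symm p.1 * e.symm p.2.1 = e.symm p.2.2}

theorem no_three (d : unitInterval ≃ₜ unitInterval) (h : d * d * d = 1) : d = 1 := by
  have h3 : ∀ x, d (d (d x)) = x := fun x => by
    have := congrArg (fun g : unitInterval ≃ₜ unitInterval => g x) h
    simpa using this
  rcases d.continuous.strictMono_of_inj_boundedOrder' d.injective with hm | hm
  · ext x
    have : d x = x := by
      rcases lt_trichotomy (d x) x with hx | hx | hx
      · have h1 := hm hx
        have h2 := hm h1
        rw [h3] at h2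
        exact absurd (h2.trans (h1.trans hx)) (lt_irrefl _)
      · exact hx
      · have h1 := hm hx
        have h2 := hm h1
        rw [h3] at h2
        exact absurd (hx.trans (h1.trans h2)) (lt_irrefl _)
    simp [this]
  · have h0 : (0 : unitInterval) < 1 := zero_lt_one
    have h1 := hm (hm (hm h0))
    rw [h3, h3] at h1
    exact absurd (h0.trans h1) (lt_irrefl _)

theorem result (E : Type) (eS : Equiv.Perm ℤ ≃ E) (eH : (unitInterval ≃ₜ unitInterval) ≃ E) :
    ¬ DecIso (rep eS) (rep eH) := by
  classical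
  rintro ⟨m, -, P, Q, ⟨hP, -⟩, ⟨hQ, -⟩, hiso⟩
  choose f hf using hiso
  let F : Fin m → Equiv.Perm ℤ → (unitInterval ≃ₜ unitInterval) :=
    fun i x => eH.symm (f i (eS x))
  have hF : ∀ i, Function.Injective (F i) := fun i x y hxy => by
    simpa [F] using hxy
  have hc : ∀ x y : Equiv.Perm ℤ, ∃ i, F i x * F i y = F i (x * y) := by
    intro x y
    have h1 : (eS x, eS y, eS (x * y)) ∈ ⋃ i, P i := by
      rw [hP]; simp [rep]
    obtain ⟨i, hi⟩ := Set.mem_iUnion.1 h1
    refine ⟨i, ?_⟩
    have h2 : (f i (eS x), f i (eS y), f i (eS (x * y))) ∈ Q i := by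
      rw [← hf i]; exact ⟨_, hi, rfl⟩
    have h3 : (f i (eS x), f i (eS y), f i (eS (x * y))) ∈ rep eH := by
      rw [← hQ]; exact Set.mem_iUnion.2 ⟨i, h2⟩
    exact h3
  choose c hc using hc
  obtain ⟨ι, hι, hHJ⟩ :=
    Combinatorics.Line.exists_mono_in_high_dimension (ZMod 3 × ZMod 3) (Fin m)
  obtain ⟨e0, he0⟩ := exists_injective_nat (Multiplicative (ι → ZMod 3))
  let e : Multiplicative (ι → ZMod 3) ↪ ℤ :=
    ⟨fun x => (e0 x : ℤ), fun x y hxy => he0 (Int.ofNat_injective hxy)⟩
  let φ : Multiplicative (ι → ZMod 3) →* Equiv.Perm ℤ :=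
    (Equiv.Perm.viaEmbeddingHom e).comp (MulAction.toPermHom _ _)
  have hφ : Function.Injective φ :=
    (Equiv.Perm.viaEmbeddingHom_injective e).comp MulAction.toPerm_injective
  let ψ : (ι → ZMod 3) → Equiv.Perm ℤ := fun v => φ (Multiplicative.ofAdd v)
  have hψ : Function.Injective ψ := fun u v h => Multiplicative.ofAdd.injective (hφ h)
  have hψa : ∀ u v, ψ (u + v) = ψ u * ψ v := fun u v => by simp [ψ, ofAdd_add]
  obtain ⟨l, k, hk⟩ := hHJ fun w => c (ψ fun i => (w i).1) (ψ fun i => (w i).2)
  let w : ι → ZMod 3 := fun i => if l.idxFun i = none then 1 else 0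
  let a : ι → ZMod 3 := fun i => ((l.idxFun i).getD 0).1
  let b : ι → ZMod 3 := fun i => ((l.idxFun i).getD 0).2
  have ha : ∀ s t : ZMod 3, (fun i => (l (s, t) i).1) = a + s • w := by
    intro s t; funext i
    rcases h : l.idxFun i with _ | z <;> simp [a, w, h]
  have hb : ∀ s t : ZMod 3, (fun i => (l (s, t) i).2) = b + t • w := by
    intro s t; funext i
    rcases h : l.idxFun i with _ | z <;> simp [b, w, h]
  let p : ZMod 3 → (unitInterval ≃ₜ unitInterval) := fun s => F k (ψ (a + s • w))
  let q : ZMod 3 → (unitInterval ≃ₜ unitInterval) := fun s => F k (ψ (b + s • w))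
  have hpq : ∀ s t, p s * q t = F k (ψ (a + b + (s + t) • w)) := by
    intro s t
    have h1 := hk (s, t)
    simp only [ha, hb] at h1
    have h2 := hc (ψ (a + s • w)) (ψ (b + t • w))
    rw [h1, ← hψa] at h2
    rw [show a + b + (s + t) • w = a + s • w + (b + t • w) by rw [add_smul]; abel]
    exact h2
  have hstep : ∀ s, p s = p (s + 1) * (q 0 * (q 1)⁻¹) := by
    intro s
    have : p s * q 1 = p (s + 1) * q 0 := by rw [hpq, hpq, add_zero]
    rw [← mul_assoc, ← this]; simp
  set d := q 0 * (q 1)⁻¹ with hd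
  have h3 : d * d * d = 1 := by
    have h0 := hstep 0
    rw [hstep (0 + 1), hstep (0 + 1 + 1), show (0 + 1 + 1 + 1 : ZMod 3) = 0 by decide] at h0
    have : p 0 * 1 = p 0 * (d * d * d) := by rw [mul_one]; simpa [mul_assoc] using h0
    exact (mul_left_cancel this).symm
  have hd1 := no_three d h3
  have h01 := hstep 0
  rw [hd1, mul_one] at h01
  have h4 := hψ (hF k h01)
  obtain ⟨i, hi⟩ := l.proper
  have h5 := congrFun h4 i
  simp [w, hi] at h5

end Pool.Agent.Results.MP_0a04b1_lc.NotDec
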